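import Pool.Agent.H5.ConeFix

set_option autoImplicit false

namespace Pool.Agent.Results.MP_8dfbdc_an.NotSmooth

open Set Filter Topology Pool.Agent.H5.ConeFix

/-- `M` is a `C^1` embedded submanifold near `p` -/
def SubmanifoldAt {n : ℕ} (M : Set (Fin n → ℝ)) (p : Fin n → ℝ) : Prop :=
  ∃ (U V : Set (Fin n → ℝ)) (k : ℕ) (ψ φ : (Fin n → ℝ) → (Fin n → ℝ)), IsOpen U ∧ IsOpen V ∧
    p ∈ U ∧ BijOn ψ U V ∧ InvOn φ ψ U V ∧ ContDiffOn ℝ 1 ψ U ∧ ContDiffOn ℝ 1 φ V ∧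
      ψ '' (U ∩ M) = V ∩ {y | ∀ i : Fin n, k ≤ i.val → y i = 0}

/-- An analytic nonexpansive map for the maximum norm whose fixed point set is not a
differentiable manifold. -/
theorem result : ∃ f : (Fin 3 → ℝ) → (Fin 3 → ℝ), (∀ x y, ‖f x - f y‖ ≤ ‖x - y‖) ∧
    AnalyticOnNhd ℝ f univ ∧ ∃ p, f p = p ∧ ¬ SubmanifoldAt {x | f x = x} p := by
  have h0 : f 0 = 0 := (fix 0).2 (by simp [F])
  refine ⟨f, nonexp, analytic, 0, h0, ?_⟩
  rintro ⟨U, V, k, ψ, φ, hU, hV, hp, h1, h2, h3, h4, h5⟩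
  let π : X →L[ℝ] X := ContinuousLinearMap.pi fun i =>
    if k ≤ i.val then 0 else ContinuousLinearMap.proj i
  have k1 : ∀ y (i : Fin 3), π y i = if k ≤ i.val then 0 else y i := fun y i => by
    simp only [π, ContinuousLinearMap.pi_apply]
    split_ifs <;> rfl
  have k2 : ∀ x ∈ U, f x = x → π (ψ x) = ψ x := fun x hx hf => by
    ext i
    rw [k1]
    split_ifs with h
    · exact ((h5.le ⟨x, ⟨hx, hf⟩, rfl⟩).2 i h).symm
    · rfl
  have k3 := (h3.contDiffAt (hU.mem_nhds hp)).differentiableAt one_ne_zero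
  have k4 := π.differentiableAt.comp 0 k3
  have k5 : (π ∘ ψ) 0 ∈ V := by
    rw [Function.comp_apply, k2 0 hp h0]
    exact h1.mapsTo hp
  refine no_local (((h4.contDiffAt (hV.mem_nhds k5)).differentiableAt one_ne_zero).comp 0 k4) ?_ ?_
  · filter_upwards [k4.continuousAt.eventually (hV.mem_nhds k5)] with x hx
    obtain ⟨y, hy, k6⟩ := h5.ge ⟨hx, fun i hi => (k1 _ i).trans (if_pos hi)⟩
    rw [Function.comp_apply, ← k6, h2.1 hy.1]
    exact (fix y).1 hy.2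
  · filter_upwards [hU.mem_nhds hp] with x hx hF
    rw [Function.comp_apply, Function.comp_apply, k2 x hx ((fix x).2 hF), h2.1 hx]

end Pool.Agent.Results.MP_8dfbdc_an.NotSmooth
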